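import Pool.Agent.N522.PC.Main

/-!
# Q1 for subgroups of `E · P`, `E` a field of endomorphisms
-/

open Pool.Agent.N522.PC

/-- Let `A` be a simple abelian variety over `ℚ` of dimension `n ≥ 1`, `p` a prime, `E` a commutative
subfield of `End(A) ⊗ ℚ`. The closure in `A(ℚ_p)` of every finitely generated subgroup of `A(ℚ)`
whose tensor product with `ℚ` is contained in `E · P` for some `P` has full rank; in particular this
holds for all subgroups if `A(ℚ) ⊗ ℚ` has dimension at most one over `E`. -/
theorem Pool.Agent.Results.MP_52423f_nt.EndomorphismRankOne.result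
    {p : ℕ} [Fact p.Prime] {n : ℕ} (hn : 0 < n) (D : Setup p n) (hD : Props D) :
    (∀ L : Submodule ℚ D.M, FiniteDimensional ℚ L →
      (∃ P : D.M, ∀ x ∈ L, ∃ e : D.E, x = e • P) → closureRank D L = Module.finrank ℚ L) ∧
    (Module.Finite D.E D.M → Module.finrank D.E D.M ≤ 1 →
      ∀ L : Submodule ℚ D.M, closureRank D L = Module.finrank ℚ L) := by
  refine ⟨fun L hL ⟨P, hP⟩ => closureRank_eq hD hn L hL P hP, ?_⟩
  intro _ h1 L
  obtain ⟨v, hv⟩ := finrank_le_one_iff.mp h1
  have := hD.fin
  let f : D.E →ₗ[ℚ] D.M :=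
    { toFun := fun e => e • v
      map_add' := fun a b => add_smul a b v
      map_smul' := fun q e => hD.tower q e v }
  have hsurj : Function.Surjective f := fun w => hv w
  have hM : Module.Finite ℚ D.M := Module.Finite.of_surjective f hsurj
  exact closureRank_eq hD hn L inferInstance v (fun x _ => by
    obtain ⟨c, hc⟩ := hv x
    exact ⟨c, hc.symm⟩)
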