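import Mathlib
import Pool.Agent.N192.AV.Uni

/-!
# Small `p`-adic closures on simple abelian varieties with endomorphisms

Let `A` be a simple abelian variety over `ℚ` of dimension `n` whose endomorphism algebra
`E = End(A) ⊗ ℚ` is commutative, and let `p` be a prime. For a finitely generated subgroup `L` of
`A(ℚ)` (written as a `ℚ`-subspace of `A(ℚ) ⊗ ℚ`) let `ρ(L)` be the `ℤ_p`-rank of its closure in
`A(ℚ_p)` and `E L` the `E`-subspace generated by `L`. Q1 asks for `ρ(L) = rank L` if `rank L ≤ n`.

(1) `rank L ≤ ρ(L) dim_E(E L)`.

(2) If `ρ(L) = ρ(L') = 1` and `E L = E L'`, then `L' = e L` for some `e ∈ E^*`.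

(3) If `V` is an `E`-subspace of dimension at most two, all `L ⊆ V` of rank at most two satisfy Q1
with the possible exception of the subspaces `e L₀`, `e ∈ E^*`, for a single `L₀`. If `A` is a simple
abelian surface with real multiplication and `dim_E A(ℚ) ⊗ ℚ = 2`, this is Q1 for all subgroups
outside one orbit of `E^*`.

Waldschmidt (On the `p`-adic closure of a subgroup of rational points on an Abelian variety) showed
that for every simple `A` the rank of the closure is at least one third of the expected one; (1)
improves this for `dim_E(E L) ≤ 2`.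

Proof. For each embedding `σ` of `E` into `C = ` (algebraic closure of `ℚ_p`) there is a functional
`λ_σ(x) = φ_σ · log x` with `λ_σ(e x) = σ(e) λ_σ(x)`, `φ_σ` a common eigenvector with algebraic
entries, and for `E`-independent `x_i` the numbers `λ_σ(x_i)` are independent over the algebraic
numbers (analytic subgroup theorem). (1) Let `J` be a set of at most `ρ` embeddings such that the
`λ_σ`, `σ ∈ J`, span all `λ_τ` on `L`. If `rank L > ρ t` some algebraic combination `Σ α_j x_j` of a
basis of `L` goes to zero in `E L ⊗_σ C` for all `σ ∈ J`, so `Σ α_j λ_τ(x_j) = 0` for all `τ`, and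
`Σ α_j x_j = 0` in all `E L ⊗_τ C`, a contradiction. (2) By (1) bases of `L`, `L'` over `ℚ` are bases
of `E L` over `E`; let `g` be the matrix of base change. Then `λ_σ = u_σ c` on `L`, `λ_σ = u'_σ c'`
on `L'`, so `c` is an eigenvector of `τ(g)⁻¹ σ(g)`. The eigenvalue is algebraic and the coordinates of
`c` are independent over the algebraic numbers, so `σ(g)` and `τ(g)` are proportional, and `g` is in
`E^* GL_t(ℚ)`.
-/

open Pool.Agent.N192.AV Module

/-- Let `A` be a simple abelian variety over `ℚ` of dimension `n ≥ 1` with commutative endomorphism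
algebra `E`, `p` a prime. (1) The rank of `L` is at most the rank of its closure times the dimension
of `E L` over `E`. (2) Two subgroups `L`, `L'` with closures of rank one and `E L = E L'` are
multiples of each other. (3) In an `E`-space of dimension at most two all subgroups of rank at most
two have a closure of full rank, except possibly the multiples of one subgroup. -/
theorem Pool.Agent.Results.MP_52423f_nt.SmallClosures.result
    {p : ℕ} [Fact p.Prime] {n : ℕ} (hn : 0 < n) (D : Setup p n) (hD : Props D) :
    (∀ L : Submodule ℚ D.M, Module.Finite ℚ L →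
      finrank ℚ L ≤ closureRank D L * finrank D.E (spanE D L)) ∧
    (∀ L L' : Submodule ℚ D.M, Module.Finite ℚ L → Module.Finite ℚ L' →
      closureRank D L = 1 → closureRank D L' = 1 → spanE D L = spanE D L' →
      ∃ e : D.E, e ≠ 0 ∧ IsMultiple D e L L') ∧
    (∀ V : Submodule D.E D.M, Module.Finite D.E V → finrank D.E V ≤ 2 →
      ∃ L₀ : Submodule ℚ D.M, ∀ L : Submodule ℚ D.M, Module.Finite ℚ L → (∀ x ∈ L, x ∈ V) →
        finrank ℚ L ≤ 2 →
        closureRank D L = finrank ℚ L ∨ ∃ e : D.E, e ≠ 0 ∧ IsMultiple D e L₀ L) :=
  ⟨fun L _ => finrank_le hn hD L, fun L L' _ _ h1 h2 h3 => multiple hn hD L L' h1 h2 h3,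
    fun V _ hV => one_orbit hn hD V hV⟩
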